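import Pool.Agent.TH362.FP.Defs
import Mathlib.Data.ZMod.Basic
import Mathlib.Data.Real.Basic
set_option autoImplicit false
namespace Pool.Agent.TH362.FP
open Finset
variable {V E : Type} [Fintype V] [DecidableEq V] [Fintype E] [DecidableEq E]

theorem no_bridge (n m : ℕ) (ends : Fin m → Fin n × Fin n)
    (hb : ∀ e : Fin m,
      Nat.card (SimpleGraph.fromRel
          (fun u v : Fin n => ∃ f ∈ (Finset.univ : Finset (Fin m)).erase e,
            ends f = (u, v))).ConnectedComponent
        = Nat.card (SimpleGraph.fromRel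
          (fun u v : Fin n => ∃ f : Fin m, ends f = (u, v))).ConnectedComponent)
    (X : Finset (Fin n)) :
    (univ.filter (fun e => ¬ ((ends e).1 ∈ X ↔ (ends e).2 ∈ X))).card ≠ 1 := by
  classical
  intro h1
  obtain ⟨e, he⟩ := Finset.card_eq_one.1 h1
  have hb' := hb e
  set G := SimpleGraph.fromRel (fun u v : Fin n => ∃ f : Fin m, ends f = (u, v)) with hG
  set G' := SimpleGraph.fromRel (fun u v : Fin n =>
    ∃ f ∈ (Finset.univ : Finset (Fin m)).erase e, ends f = (u, v)) with hG'
  have hle : G' ≤ G := by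
    intro u v h
    rw [hG', SimpleGraph.fromRel_adj] at h
    rw [hG, SimpleGraph.fromRel_adj]
    refine ⟨h.1, ?_⟩
    rcases h.2 with ⟨f, _, hf⟩ | ⟨f, _, hf⟩
    · exact Or.inl ⟨f, hf⟩
    · exact Or.inr ⟨f, hf⟩
  have hsurj : Function.Surjective
      (SimpleGraph.ConnectedComponent.map (SimpleGraph.Hom.ofLE hle)) := by
    intro c
    induction c using SimpleGraph.ConnectedComponent.ind with
    | h v => exact ⟨G'.connectedComponentMk v, rfl⟩
  have hbij := hsurj.bijective_of_nat_card_le hb'.le
  have hmem : e ∈ univ.filter (fun e => ¬ ((ends e).1 ∈ X ↔ (ends e).2 ∈ X)) := by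
    rw [he]; exact Finset.mem_singleton_self e
  have hcut := (Finset.mem_filter.1 hmem).2
  have hne : (ends e).1 ≠ (ends e).2 := by
    intro h
    exact hcut (by rw [h])
  have hadj : G.Adj (ends e).1 (ends e).2 := by
    rw [hG, SimpleGraph.fromRel_adj]
    exact ⟨hne, Or.inl ⟨e, rfl⟩⟩
  have hcc : G'.connectedComponentMk (ends e).1 = G'.connectedComponentMk (ends e).2 := by
    apply hbij.1
    show G.connectedComponentMk (ends e).1 = G.connectedComponentMk (ends e).2
    exact SimpleGraph.ConnectedComponent.sound hadj.reachable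
  obtain ⟨p⟩ := SimpleGraph.ConnectedComponent.exact hcc
  have hstep : ∀ a b : Fin n, G'.Adj a b → (a ∈ X ↔ b ∈ X) := by
    intro a b h
    rw [hG', SimpleGraph.fromRel_adj] at h
    have key : ∀ f ∈ (Finset.univ : Finset (Fin m)).erase e,
        ((ends f).1 ∈ X ↔ (ends f).2 ∈ X) := by
      intro f hf
      by_contra hcon
      have h2 : f ∈ univ.filter (fun e => ¬ ((ends e).1 ∈ X ↔ (ends e).2 ∈ X)) :=
        Finset.mem_filter.2 ⟨Finset.mem_univ f, hcon⟩
      rw [he, Finset.mem_singleton] at h2
      exact (Finset.mem_erase.1 hf).1 h2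
    rcases h.2 with ⟨f, hf, hf2⟩ | ⟨f, hf, hf2⟩
    · have := key f hf
      rw [hf2] at this
      exact this
    · have := key f hf
      rw [hf2] at this
      exact this.symm
  have hwalk : ∀ (a b : Fin n) (_ : G'.Walk a b), (a ∈ X ↔ b ∈ X) := by
    intro a b q
    induction q with
    | nil => exact Iff.rfl
    | cons h _ ih => exact (hstep _ _ h).trans ih
  exact hcut (hwalk _ _ p)

end Pool.Agent.TH362.FP
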