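import Pool.Agent.TH362.FP.Defs
import Mathlib.Algebra.BigOperators.Ring.Finset
import Mathlib.Tactic.Ring
import Mathlib.Tactic.Positivity
import Mathlib.Data.ZMod.Basic
import Mathlib.Data.Real.Basic

/-!
Components of graphs and the exponents in the characteristic polynomial of the bond matroid.
-/

set_option autoImplicit false

namespace Pool.Agent.TH362.FP

open Finset

namespace Pos

variable {V E : Type} [Fintype V] [Fintype E] [DecidableEq E]

/-- the graph of the edges in `A` -/
def gr (s t : E → V) (A : Finset E) : SimpleGraph V :=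
  SimpleGraph.fromRel (fun u v : V => ∃ e ∈ A, s e = u ∧ t e = v)

omit [Fintype V] [Fintype E] [DecidableEq E] in
theorem adj_iff {s t : E → V} {A : Finset E} {x y : V} : (gr s t A).Adj x y ↔
    x ≠ y ∧ ((∃ e ∈ A, s e = x ∧ t e = y) ∨ ∃ e ∈ A, s e = y ∧ t e = x) :=
  SimpleGraph.fromRel_adj _ _ _

omit [Fintype V] [Fintype E] in
theorem reach (s t : E → V) (A : Finset E) (e : E) {x y : V}
    (h : (gr s t (insert e A)).Reachable x y) :
    (gr s t A).Reachable x y ∨ ((gr s t A).Reachable x (s e) ∧ (gr s t A).Reachable (t e) y) ∨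
      ((gr s t A).Reachable x (t e) ∧ (gr s t A).Reachable (s e) y) := by
  obtain ⟨w⟩ := h
  have key : ∀ {a b : V} (_ : (gr s t (insert e A)).Walk a b), ((gr s t A).Reachable a b ∨
      ((gr s t A).Reachable a (s e) ∧ (gr s t A).Reachable (t e) b) ∨
      ((gr s t A).Reachable a (t e) ∧ (gr s t A).Reachable (s e) b)) := by
    intro a b w
    induction w with
    | nil => exact Or.inl (SimpleGraph.Reachable.refl _)
    | @cons a c b hac _ ih =>
      rw [adj_iff] at hac
      obtain ⟨hne, hac⟩ := hac
      have h1 : (gr s t A).Adj a c ∨ (a = s e ∧ c = t e) ∨ (a = t e ∧ c = s e) := by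
        rcases hac with ⟨f, hf, h1, h2⟩ | ⟨f, hf, h1, h2⟩
        · rcases Finset.mem_insert.1 hf with rfl | hf
          · exact Or.inr (Or.inl ⟨h1.symm, h2.symm⟩)
          · exact Or.inl (adj_iff.2 ⟨hne, Or.inl ⟨f, hf, h1, h2⟩⟩)
        · rcases Finset.mem_insert.1 hf with rfl | hf
          · exact Or.inr (Or.inr ⟨h2.symm, h1.symm⟩)
          · exact Or.inl (adj_iff.2 ⟨hne, Or.inr ⟨f, hf, h1, h2⟩⟩)
      rcases h1 with h1 | ⟨rfl, rfl⟩ | ⟨rfl, rfl⟩
      · have h2 := h1.reachable
        rcases ih with ih | ⟨ih1, ih2⟩ | ⟨ih1, ih2⟩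
        · exact Or.inl (h2.trans ih)
        · exact Or.inr (Or.inl ⟨h2.trans ih1, ih2⟩)
        · exact Or.inr (Or.inr ⟨h2.trans ih1, ih2⟩)
      · rcases ih with ih | ⟨ih1, ih2⟩ | ⟨ih1, ih2⟩
        · exact Or.inr (Or.inl ⟨SimpleGraph.Reachable.refl _, ih⟩)
        · exact Or.inr (Or.inl ⟨SimpleGraph.Reachable.refl _, ih2⟩)
        · exact Or.inl ih2
      · rcases ih with ih | ⟨ih1, ih2⟩ | ⟨ih1, ih2⟩
        · exact Or.inr (Or.inr ⟨SimpleGraph.Reachable.refl _, ih⟩)
        · exact Or.inl ih2
        · exact Or.inr (Or.inr ⟨SimpleGraph.Reachable.refl _, ih2⟩)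
  exact key w

omit [Fintype E] in
theorem comps_insert (s t : E → V) (A : Finset E) (e : E) :
    comps s t A ≤ comps s t (insert e A) + 1 := by
  classical
  have hle : gr s t A ≤ gr s t (insert e A) := by
    intro x y h
    rw [adj_iff] at h ⊢
    refine ⟨h.1, ?_⟩
    rcases h.2 with ⟨f, hf, h1⟩ | ⟨f, hf, h1⟩
    · exact Or.inl ⟨f, Finset.mem_insert_of_mem hf, h1⟩
    · exact Or.inr ⟨f, Finset.mem_insert_of_mem hf, h1⟩
  have e1 : comps s t (insert e A) + 1 =
      Nat.card (Option (gr s t (insert e A)).ConnectedComponent) := by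
    rw [Finite.card_option]; rfl
  rw [e1]
  change Nat.card (gr s t A).ConnectedComponent ≤ _
  let F : (gr s t A).ConnectedComponent → Option (gr s t (insert e A)).ConnectedComponent :=
    fun c => if c = (gr s t A).connectedComponentMk (t e) then none
      else some (c.map (SimpleGraph.Hom.ofLE hle))
  refine Nat.card_le_card_of_injective F ?_
  intro c c' hcc
  induction c using SimpleGraph.ConnectedComponent.ind with | _ x =>
  induction c' using SimpleGraph.ConnectedComponent.ind with | _ y =>
  simp only [F] at hcc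
  split_ifs at hcc with h1 h2 h2
  · rw [h1, h2]
  · simp only [SimpleGraph.ConnectedComponent.map_mk, Option.some.injEq] at hcc
    have h3 : (gr s t (insert e A)).Reachable x y := SimpleGraph.ConnectedComponent.exact hcc
    rcases reach s t A e h3 with h | ⟨-, h⟩ | ⟨h, -⟩
    · exact SimpleGraph.ConnectedComponent.sound h
    · exact absurd (SimpleGraph.ConnectedComponent.sound h.symm) h2
    · exact absurd (SimpleGraph.ConnectedComponent.sound h) h1

omit [Fintype E] in
theorem comps_union (s t : E → V) (A B : Finset E) :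
    comps s t A ≤ comps s t (A ∪ B) + B.card := by
  induction B using Finset.induction_on with
  | empty => simp
  | insert e B he ih =>
    have h := comps_insert s t (A ∪ B) e
    rw [Finset.union_insert, Finset.card_insert_of_notMem he]
    omega

omit [Fintype E] [DecidableEq E] in
theorem comps_le (s t : E → V) (A : Finset E) : comps s t A ≤ Fintype.card V := by
  rw [← Nat.card_eq_fintype_card]
  exact Nat.card_le_card_of_surjective (gr s t A).connectedComponentMk
    (fun c => c.exists_rep)

omit [Fintype E] [DecidableEq E] in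
theorem comps_empty (s t : E → V) : comps s t ∅ = Fintype.card V := by
  rw [← Nat.card_eq_fintype_card]
  symm
  refine Nat.card_eq_of_bijective (gr s t ∅).connectedComponentMk ⟨?_, fun c => c.exists_rep⟩
  intro x y hxy
  have h := SimpleGraph.ConnectedComponent.exact hxy
  have hb : gr s t ∅ = ⊥ := by
    ext x y
    rw [adj_iff]
    simp
  rw [hb, SimpleGraph.reachable_bot] at h
  exact h

theorem expo (s t : E → V) (B : Finset E) :
    rkd s t univ - rkd s t Bᶜ = B.card + comps s t B - Fintype.card V := by
  have h0 := comps_empty s t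
  have h1 := comps_le s t B
  have h2 := comps_union s t ∅ B
  have h3 := comps_union s t B Bᶜ
  have h4 := comps_le s t (univ : Finset E)
  have h5 : (Bᶜ).card = Fintype.card E - B.card := Finset.card_compl B
  have h6 : B.card ≤ Fintype.card E := Finset.card_le_univ B
  rw [Finset.empty_union] at h2
  rw [Finset.union_compl] at h3
  unfold rkd rk
  rw [compl_compl, Finset.compl_univ, h0, Finset.card_univ, h5]
  omega

theorem chr_sum (s t : E → V) (x : ℤ) : chr s t x =
    ∑ B : Finset E, (-1) ^ (Fintype.card E - B.card) *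
      x ^ (B.card + comps s t B - Fintype.card V) := by
  unfold chr
  rw [← Equiv.sum_comp (Equiv.ofBijective (compl : Finset E → Finset E) compl_bijective)]
  refine Finset.sum_congr rfl fun B _ => ?_
  simp only [Equiv.ofBijective_apply]
  rw [expo, Finset.card_compl]

end Pos

end Pool.Agent.TH362.FP
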