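import Pool.Agent.TH362.FP.Cnt
import Pool.Agent.TH362.FP.PosAux
import Mathlib.Data.ZMod.Basic
import Mathlib.Data.Real.Basic
import Mathlib.Algebra.BigOperators.Ring.Finset
import Mathlib.Tactic.Ring
import Mathlib.Tactic.Positivity

/-!
Positivity of the flow polynomial at the integers from a nowhere-zero 5-flow.
-/

set_option autoImplicit false

namespace Pool.Agent.TH362.FP

open Finset

variable {V E : Type} [Fintype V] [DecidableEq V] [Fintype E] [DecidableEq E]

theorem chr_pos (s t : E → V) (f : E → ℤ) (hf : ∀ e, 1 ≤ |f e| ∧ |f e| ≤ 4)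
    (h : ∀ v, ∑ e ∈ univ.filter (fun e => s e = v), f e =
      ∑ e ∈ univ.filter (fun e => t e = v), f e) (q : ℕ) (hq : 5 ≤ q) :
    0 < chr s t q := by
  have hq0 : NeZero q := ⟨by omega⟩
  rw [chr_eq s t q]
  have hne : Nonempty {φ : E → ZMod q // (∀ e, φ e ≠ 0) ∧
      ∀ v, ∑ e ∈ univ.filter (fun e => s e = v), φ e =
        ∑ e ∈ univ.filter (fun e => t e = v), φ e} := by
    refine ⟨⟨fun e => (f e : ZMod q), fun e he => ?_, fun v => ?_⟩⟩
    · rw [ZMod.intCast_zmod_eq_zero_iff_dvd] at he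
      obtain ⟨h1, h2⟩ := hf e
      have h3 : (q : ℤ) ∣ |f e| := (dvd_abs _ _).2 he
      have h4 := Int.le_of_dvd (by omega) h3
      omega
    · have h1 := congrArg (Int.cast : ℤ → ZMod q) (h v)
      rw [Int.cast_sum, Int.cast_sum] at h1
      exact h1
  have h1 := Nat.card_pos (α := {φ : E → ZMod q // (∀ e, φ e ≠ 0) ∧
      ∀ v, ∑ e ∈ univ.filter (fun e => s e = v), φ e =
        ∑ e ∈ univ.filter (fun e => t e = v), φ e})
  exact_mod_cast h1

theorem flow_pos (n m : ℕ) (ends : Fin m → Fin n × Fin n) (f : Fin m → ℤ)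
    (hf : ∀ e, 1 ≤ |f e| ∧ |f e| ≤ 4)
    (h : ∀ v, ∑ e ∈ univ.filter (fun e => (ends e).1 = v), f e =
      ∑ e ∈ univ.filter (fun e => (ends e).2 = v), f e) (q : ℕ) (hq : 5 ≤ q) :
    0 < ∑ A ∈ (Finset.univ : Finset (Fin m)).powerset,
        (-1 : ℝ) ^ (m - A.card) *
          (q : ℝ) ^ (A.card + Nat.card (SimpleGraph.fromRel
                (fun u v : Fin n => ∃ f ∈ A, ends f = (u, v))).ConnectedComponent - n) := by
  have h1 := chr_pos (fun e => (ends e).1) (fun e => (ends e).2) f hf h q hq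
  rw [Pos.chr_sum] at h1
  have h2 : (0 : ℝ) < ((∑ B : Finset (Fin m), (-1) ^ (Fintype.card (Fin m) - B.card) *
      (q : ℤ) ^ (B.card + comps (fun e => (ends e).1) (fun e => (ends e).2) B -
        Fintype.card (Fin n)) : ℤ) : ℝ) := by exact_mod_cast h1
  push_cast at h2
  rw [Finset.powerset_univ]
  refine h2.trans_eq (Finset.sum_congr rfl fun A _ => ?_)
  rw [Fintype.card_fin, Fintype.card_fin]
  congr 3
  unfold comps
  congr 3
  have : (fun u v : Fin n => ∃ e ∈ A, (ends e).1 = u ∧ (ends e).2 = v) =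
      (fun u v : Fin n => ∃ f ∈ A, ends f = (u, v)) := by
    funext u v
    simp only [Prod.ext_iff]
  rw [this]

end Pool.Agent.TH362.FP
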