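import Pool.Agent.TH362.FP.Defs
import Pool.Agent.H753R2.FR.T_A1

/-!
The characteristic polynomial of the bond matroid counts the nowhere-zero flows.
-/

set_option autoImplicit false
set_option linter.unusedSectionVars false

namespace Pool.Agent.TH362.FP

open Finset

variable {V E : Type} [Fintype V] [DecidableEq V] [Fintype E] [DecidableEq E]

namespace CntAux

open Pool.Agent.H753R2.FR

/-- the graph as a multigraph -/
def gr (s t : E → V) : MG V E where
  x := s
  y := t

theorem conn_eq (s t : E → V) (A : Finset E) :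
    conn (gr s t) A =
      (SimpleGraph.fromRel (fun u v : V => ∃ e ∈ A, s e = u ∧ t e = v)).reachableSetoid := by
  apply le_antisymm
  · rw [conn_le_iff]
    intro e he
    change (SimpleGraph.fromRel (fun u v : V => ∃ e ∈ A, s e = u ∧ t e = v)).Reachable (s e) (t e)
    by_cases hne : s e = t e
    · rw [hne]
    · apply SimpleGraph.Adj.reachable
      rw [SimpleGraph.fromRel_adj]
      exact ⟨hne, Or.inl ⟨e, he, rfl, rfl⟩⟩
  · intro a b hab
    have hab' : (SimpleGraph.fromRel (fun u v : V => ∃ e ∈ A, s e = u ∧ t e = v)).Reachable a b := hab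
    obtain ⟨w⟩ := hab'
    have hle : ∀ f ∈ A, (conn (gr s t) A) (s f) (t f) := fun f hf =>
      (conn_le_iff (G := gr s t) (A := A) (r := conn (gr s t) A)).1 le_rfl f hf
    induction w with
    | nil => exact (conn (gr s t) A).refl _
    | @cons u v w hadj _ ih =>
      refine (conn (gr s t) A).trans ?_ (ih ⟨‹_›⟩)
      rw [SimpleGraph.fromRel_adj] at hadj
      obtain ⟨_, ⟨f, hf, h1, h2⟩ | ⟨f, hf, h1, h2⟩⟩ := hadj
      · rw [← h1, ← h2]
        exact hle f hf
      · rw [← h1, ← h2]
        exact (conn (gr s t) A).symm (hle f hf)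

theorem comps_eq (s t : E → V) (A : Finset E) : comps s t A = cl (conn (gr s t) A) := by
  rw [conn_eq]
  rfl

variable {q : ℕ}

/-- flows supported on `B` -/
def IsF (q : ℕ) (s t : E → V) (B : Finset E) (φ : E → ZMod q) : Prop :=
  (∀ e ∉ B, φ e = 0) ∧ ∀ v, ∑ e ∈ univ.filter (fun e => s e = v), φ e =
    ∑ e ∈ univ.filter (fun e => t e = v), φ e

theorem sum_fib (g : V → ZMod q) (s : E → V) (φ : E → ZMod q) :
    ∑ v, g v * ∑ e ∈ univ.filter (fun e => s e = v), φ e = ∑ e, g (s e) * φ e := by
  simp_rw [mul_sum, sum_filter]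
  rw [sum_comm]
  refine sum_congr rfl fun e _ => ?_
  rw [sum_ite_eq, if_pos (mem_univ _)]

theorem single_sum (s : E → V) (e : E) (a : ZMod q) (v : V) :
    ∑ f ∈ univ.filter (fun f => s f = v), (Pi.single e a : E → ZMod q) f = if s e = v then a else 0 := by
  rw [sum_filter]
  rw [Finset.sum_eq_single e]
  · rw [Pi.single_eq_same]
  · intro f _ hf
    rw [Pi.single_eq_of_ne hf]
    split_ifs <;> rfl
  · intro h
    exact absurd (mem_univ e) h

/-- `u` and `v` are joined by a unit flow supported on `B` -/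
def Joined (q : ℕ) (s t : E → V) (B : Finset E) (u v : V) : Prop :=
  ∃ ψ : E → ZMod q, (∀ e ∉ B, ψ e = 0) ∧ ∀ w, ∑ e ∈ univ.filter (fun e => s e = w), ψ e =
    ∑ e ∈ univ.filter (fun e => t e = w), ψ e + ((if u = w then 1 else 0) - (if v = w then 1 else 0))

/-- the setoid of joined vertices -/
def joinS (q : ℕ) (s t : E → V) (B : Finset E) : Setoid V where
  r := Joined q s t B
  iseqv := by
    refine ⟨fun u => ⟨0, fun _ _ => rfl, fun w => by simp⟩, ?_, ?_⟩
    · rintro u v ⟨ψ, h1, h2⟩
      refine ⟨-ψ, fun e he => by rw [Pi.neg_apply, h1 e he, neg_zero], fun w => ?_⟩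
      simp only [Pi.neg_apply, sum_neg_distrib]
      rw [h2 w]
      ring
    · rintro u v w ⟨ψ, h1, h2⟩ ⟨ψ', h1', h2'⟩
      refine ⟨ψ + ψ', fun e he => by rw [Pi.add_apply, h1 e he, h1' e he, add_zero], fun x => ?_⟩
      simp only [Pi.add_apply, sum_add_distrib]
      rw [h2 x, h2' x]
      ring

theorem joined_of_conn (s t : E → V) (B : Finset E) {u v : V} (h : (conn (gr s t) B) u v) :
    Joined q s t B u v := by
  have h1 : conn (gr s t) B ≤ joinS q s t B := by
    rw [conn_le_iff]
    intro e he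
    change Joined q s t B (s e) (t e)
    refine ⟨Pi.single e 1, fun f hf => ?_, fun w => ?_⟩
    · rw [Pi.single_eq_of_ne]
      rintro rfl
      exact hf he
    · rw [single_sum, single_sum]
      ring
  exact h1 h

theorem exists_circ (s t : E → V) (B : Finset E) (e : E)
    (h : (conn (gr s t) B) (s e) (t e)) (he : e ∉ B) :
    ∃ γ : E → ZMod q, IsF q s t (insert e B) γ ∧ γ e = 1 := by
  obtain ⟨ψ, h1, h2⟩ := joined_of_conn (q := q) s t B ((conn (gr s t) B).symm h)
  refine ⟨ψ + Pi.single e 1, ⟨fun f hf => ?_, fun v => ?_⟩, ?_⟩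
  · rw [mem_insert, not_or] at hf
    rw [Pi.add_apply, h1 f hf.2, Pi.single_eq_of_ne hf.1, add_zero]
  · simp only [Pi.add_apply, sum_add_distrib]
    rw [single_sum, single_sum, h2 v]
    ring
  · rw [Pi.add_apply, h1 e he, Pi.single_eq_same, zero_add]

theorem zero_of_not (s t : E → V) (B : Finset E) (e : E) (h : ¬ (conn (gr s t) B) (s e) (t e))
    (φ : E → ZMod q) (hφ : IsF q s t (insert e B) φ) : φ e = 0 := by
  classical
  set g : V → ZMod q := fun v => if (conn (gr s t) B) (s e) v then 1 else 0 with hg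
  have h1 := sum_fib g s φ
  have h2 := sum_fib g t φ
  have h3 : ∑ v, g v * ∑ e ∈ univ.filter (fun e => s e = v), φ e =
      ∑ v, g v * ∑ e ∈ univ.filter (fun e => t e = v), φ e :=
    sum_congr rfl fun v _ => by rw [hφ.2 v]
  rw [h1, h2, ← sub_eq_zero, ← sum_sub_distrib, Finset.sum_eq_single e] at h3
  · have h4 : g (s e) = 1 := if_pos ((conn (gr s t) B).refl _)
    have h5 : g (t e) = 0 := if_neg h
    rw [h4, h5, one_mul, zero_mul, sub_zero] at h3
    exact h3
  · intro f _ hf
    by_cases hfB : f ∈ B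
    · have h6 : (conn (gr s t) B) (s f) (t f) :=
        (conn_le_iff (G := gr s t) (A := B) (r := conn (gr s t) B)).1 le_rfl f hfB
      have h7 : g (s f) = g (t f) := by
        simp only [hg]
        congr 1
        exact propext ⟨fun h => (conn (gr s t) B).trans h h6,
          fun h => (conn (gr s t) B).trans h ((conn (gr s t) B).symm h6)⟩
      rw [h7, sub_self]
    · have h8 : φ f = 0 := hφ.1 f (by rw [mem_insert, not_or]; exact ⟨hf, hfB⟩)
      rw [h8, mul_zero, mul_zero, sub_zero]
  · intro h9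
    exact absurd (mem_univ e) h9

theorem isF_add {s t : E → V} {B : Finset E} {φ ψ : E → ZMod q} (h1 : IsF q s t B φ)
    (h2 : IsF q s t B ψ) (a : ZMod q) : IsF q s t B (fun e => φ e + a * ψ e) := by
  refine ⟨fun e he => ?_, fun v => ?_⟩
  · change φ e + a * ψ e = 0
    rw [h1.1 e he, h2.1 e he, mul_zero, add_zero]
  simp only [sum_add_distrib, ← mul_sum]
  rw [h1.2 v, h2.2 v]

theorem isF_mono {s t : E → V} {B B' : Finset E} (hB : B ⊆ B') {φ : E → ZMod q}
    (h1 : IsF q s t B φ) : IsF q s t B' φ :=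
  ⟨fun e he => h1.1 e fun h => he (hB h), h1.2⟩

theorem isF_of_zero {s t : E → V} {B : Finset E} {e : E} {φ : E → ZMod q}
    (h1 : IsF q s t (insert e B) φ) (h0 : φ e = 0) : IsF q s t B φ := by
  refine ⟨fun f hf => ?_, h1.2⟩
  by_cases hfe : f = e
  · rw [hfe, h0]
  · exact h1.1 f (by rw [mem_insert, not_or]; exact ⟨hfe, hf⟩)

theorem card_isF [NeZero q] (s t : E → V) (B : Finset E) :
    Nat.card {φ : E → ZMod q // IsF q s t B φ} * q ^ Fintype.card V =
      q ^ (B.card + cl (conn (gr s t) B)) := by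
  induction B using Finset.induction_on with
  | empty =>
    rw [conn_empty, cl_bot, card_empty, zero_add]
    have h1 : Nat.card {φ : E → ZMod q // IsF q s t ∅ φ} = 1 := by
      rw [Nat.card_eq_one_iff_unique]
      refine ⟨⟨fun a b => Subtype.ext (funext fun e => ?_)⟩, ⟨⟨0, fun _ _ => rfl, fun _ => by simp⟩⟩⟩
      rw [a.2.1 e (notMem_empty e), b.2.1 e (notMem_empty e)]
    rw [h1, one_mul]
  | insert e B he ih =>
    rw [conn_insert, card_insert_of_notMem he]
    by_cases h : (conn (gr s t) B) (s e) (t e)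
    · obtain ⟨γ, hγ, hγ1⟩ := exists_circ (q := q) s t B e h he
      have h1 : Nat.card {φ : E → ZMod q // IsF q s t (insert e B) φ} =
          Nat.card {φ : E → ZMod q // IsF q s t B φ} * q := by
        have hq : Nat.card (ZMod q) = q := Nat.card_zmod q
        have hp : Nat.card ({φ : E → ZMod q // IsF q s t B φ} × ZMod q) =
            Nat.card {φ : E → ZMod q // IsF q s t B φ} * q := by
          rw [Nat.card_prod, hq]
        rw [← hp]
        refine (Nat.card_congr ?_).symm
        exact
          { toFun := fun p => ⟨fun f => p.1.1 f + p.2 * γ f,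
              isF_add (isF_mono (subset_insert e B) p.1.2) hγ p.2⟩
            invFun := fun ψ => (⟨fun f => ψ.1 f + -(ψ.1 e) * γ f,
              isF_of_zero (e := e) (isF_add ψ.2 hγ _) (by rw [hγ1]; ring)⟩, ψ.1 e)
            left_inv := by
              rintro ⟨⟨φ, hφ⟩, a⟩
              have h0 : φ e = 0 := hφ.1 e he
              ext f
              · simp only [h0, hγ1]
                ring
              · simp only [h0, hγ1]
                ring
            right_inv := by
              rintro ⟨ψ, hψ⟩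
              ext f
              simp only
              ring }
      have h2 : cl (conn (gr s t) B ⊔ pr ((gr s t).x e) ((gr s t).y e)) = cl (conn (gr s t) B) :=
        cl_sup_pr_of_rel h
      rw [h2, h1, mul_right_comm, ih, ← pow_succ]
      congr 1
      omega
    · have h1 : Nat.card {φ : E → ZMod q // IsF q s t (insert e B) φ} =
          Nat.card {φ : E → ZMod q // IsF q s t B φ} := by
        refine Nat.card_congr (Equiv.subtypeEquivRight fun φ => ⟨fun hφ => ?_, fun hφ => ?_⟩)
        · exact isF_of_zero hφ (zero_of_not s t B e h φ hφ)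
        · exact isF_mono (subset_insert e B) hφ
      have h2 : cl (conn (gr s t) B ⊔ pr ((gr s t).x e) ((gr s t).y e)) + 1 = cl (conn (gr s t) B) :=
        cl_sup_pr_of_not h
      rw [h1, ih]
      congr 1
      omega

end CntAux

open CntAux in
theorem chr_eq (s t : E → V) (q : ℕ) [NeZero q] :
    chr s t q = Nat.card {φ : E → ZMod q // (∀ e, φ e ≠ 0) ∧
      ∀ v, ∑ e ∈ univ.filter (fun e => s e = v), φ e =
        ∑ e ∈ univ.filter (fun e => t e = v), φ e} := by
  classical
  -- the exponents
  have hC : ∀ B : Finset E, Fintype.card V ≤ B.card + comps s t B := by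
    intro B
    have h1 := Pool.Agent.H753R2.FR.cl_conn (G := gr s t) ⊥ B
    rw [bot_sup_eq, Pool.Agent.H753R2.FR.cl_bot, ← comps_eq] at h1
    omega
  have hle : ∀ B : Finset E, comps s t B ≤ Fintype.card V := by
    intro B
    rw [comps_eq, ← Pool.Agent.H753R2.FR.cl_bot]
    exact Pool.Agent.H753R2.FR.cl_anti bot_le
  have hmon : ∀ B : Finset E, comps s t B ≤ comps s t univ + Bᶜ.card := by
    intro B
    have h1 := Pool.Agent.H753R2.FR.cl_conn (G := gr s t)
      (Pool.Agent.H753R2.FR.conn (gr s t) B) Bᶜ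
    rw [← Pool.Agent.H753R2.FR.conn_union, union_compl, ← comps_eq, ← comps_eq] at h1
    exact h1
  have h0 : comps s t ∅ = Fintype.card V := by
    rw [comps_eq, Pool.Agent.H753R2.FR.conn_empty, Pool.Agent.H753R2.FR.cl_bot]
  have hexp : ∀ A : Finset E, rkd s t univ - rkd s t A =
      Aᶜ.card + comps s t Aᶜ - Fintype.card V := by
    intro A
    unfold rkd rk
    rw [compl_univ, h0, Nat.sub_self, add_zero]
    have e1 := hC univ
    have e2 := hle univ
    have e3 := hC Aᶜ
    have e4 := hle Aᶜ
    have e5 := hmon Aᶜ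
    rw [compl_compl] at e5
    have e6 : A.card + Aᶜ.card = (univ : Finset E).card := by
      rw [card_univ, card_add_card_compl]
    omega
  have hN : ∀ A : Finset E, ((q : ℤ) ^ (rkd s t univ - rkd s t A)) =
      ((Nat.card {φ : E → ZMod q // IsF q s t Aᶜ φ} : ℕ) : ℤ) := by
    intro A
    rw [hexp A]
    have h1 := card_isF (q := q) s t Aᶜ
    rw [← comps_eq] at h1
    have h2 : q ^ (Aᶜ.card + comps s t Aᶜ) =
        q ^ (Aᶜ.card + comps s t Aᶜ - Fintype.card V) * q ^ Fintype.card V := by
      rw [← pow_add, Nat.sub_add_cancel (hC _)]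
    rw [h2] at h1
    have h3 := Nat.eq_of_mul_eq_mul_right (Nat.pos_of_ne_zero (pow_ne_zero _ (NeZero.ne q))) h1
    rw [h3]
    push_cast
    rfl
  -- the inclusion and exclusion
  set F : Finset (E → ZMod q) := univ.filter (fun φ => ∀ v,
    ∑ e ∈ univ.filter (fun e => s e = v), φ e = ∑ e ∈ univ.filter (fun e => t e = v), φ e) with hF
  have hcard : ∀ A : Finset E, ((Nat.card {φ : E → ZMod q // IsF q s t Aᶜ φ} : ℕ) : ℤ) =
      ∑ φ ∈ F, if A ⊆ univ.filter (fun e => φ e = 0) then 1 else 0 := by
    intro A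
    rw [Nat.card_eq_fintype_card, Fintype.card_subtype, ← sum_boole, hF, sum_filter]
    refine sum_congr rfl fun φ _ => ?_
    have h1 : IsF q s t Aᶜ φ ↔ (∀ v, ∑ e ∈ univ.filter (fun e => s e = v), φ e =
        ∑ e ∈ univ.filter (fun e => t e = v), φ e) ∧ A ⊆ univ.filter (fun e => φ e = 0) := by
      unfold IsF
      rw [and_comm]
      refine and_congr_right fun _ => ⟨fun h e he => ?_, fun h e he => ?_⟩
      · rw [mem_filter]
        exact ⟨mem_univ e, h e (by rw [mem_compl, not_not]; exact he)⟩
      · rw [mem_compl, not_not] at he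
        exact (mem_filter.1 (h he)).2
    by_cases h2 : ∀ v, ∑ e ∈ univ.filter (fun e => s e = v), φ e =
        ∑ e ∈ univ.filter (fun e => t e = v), φ e
    · rw [if_pos h2]
      by_cases h3 : A ⊆ univ.filter (fun e => φ e = 0)
      · rw [if_pos h3, if_pos (h1.2 ⟨h2, h3⟩)]
      · rw [if_neg h3, if_neg fun h => h3 (h1.1 h).2]
    · rw [if_neg h2, if_neg fun h => h2 (h1.1 h).1]
  unfold chr
  calc ∑ A : Finset E, (-1) ^ A.card * (q : ℤ) ^ (rkd s t univ - rkd s t A)
      = ∑ A : Finset E, ∑ φ ∈ F, if A ⊆ univ.filter (fun e => φ e = 0) then (-1 : ℤ) ^ A.card else 0 := by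
        refine sum_congr rfl fun A _ => ?_
        rw [hN A, hcard A, mul_sum]
        refine sum_congr rfl fun φ _ => ?_
        rw [mul_ite, mul_one, mul_zero]
    _ = ∑ φ ∈ F, ∑ A : Finset E, if A ⊆ univ.filter (fun e => φ e = 0) then (-1 : ℤ) ^ A.card else 0 :=
        sum_comm
    _ = ∑ φ ∈ F, if (univ.filter (fun e => φ e = 0)) = ∅ then (1 : ℤ) else 0 := by
        refine sum_congr rfl fun φ _ => ?_
        rw [← sum_powerset_neg_one_pow_card, ← sum_filter]
        refine sum_congr ?_ fun _ _ => rfl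
        ext A
        simp
    _ = _ := by
        rw [Nat.card_eq_fintype_card, Fintype.card_subtype, sum_boole, hF, filter_filter]
        congr 2
        ext φ
        simp only [mem_filter, mem_univ, true_and, filter_eq_empty_iff]
        constructor
        · rintro ⟨h1, h2⟩
          exact ⟨fun e => h2 trivial, h1⟩
        · rintro ⟨h1, h2⟩
          exact ⟨h2, fun e _ => h1 e⟩

end Pool.Agent.TH362.FP
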