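import Mathlib.Combinatorics.SimpleGraph.Connectivity.Connected
import Mathlib.SetTheory.Cardinal.Finite
import Mathlib.Algebra.BigOperators.Group.Finset.Basic
import Mathlib.Data.Int.Basic
import Mathlib.Data.Finset.Powerset

/-!
The characteristic polynomial of the bond matroid of a graph.
-/

set_option autoImplicit false

namespace Pool.Agent.TH362.FP

variable {V E : Type} [Fintype V] [Fintype E] [DecidableEq E]

/-- The number of the connected components of the graph with the vertices `V` and the edges `A`. -/
noncomputable def comps (s t : E → V) (A : Finset E) : ℕ :=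
  Nat.card (SimpleGraph.fromRel
    (fun u v : V => ∃ e ∈ A, s e = u ∧ t e = v)).ConnectedComponent

/-- The rank of `A` in the cycle matroid. -/
noncomputable def rk (s t : E → V) (A : Finset E) : ℕ := Fintype.card V - comps s t A

/-- The rank of `A` in the bond matroid. -/
noncomputable def rkd (s t : E → V) (A : Finset E) : ℕ :=
  A.card + rk s t Aᶜ - rk s t Finset.univ

/-- The characteristic polynomial of the bond matroid at the integer `x`. -/
noncomputable def chr (s t : E → V) (x : ℤ) : ℤ :=
  ∑ A : Finset E, (-1) ^ A.card * x ^ (rkd s t Finset.univ - rkd s t A)

end Pool.Agent.TH362.FP
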